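import Mathlib

set_option autoImplicit false

namespace Pool.Agent.Results.MP_f1850b_ag.ZariskiB

/-!
# Topological equisingularity is not inherited by the first blow-up (Zariski's question B)

In `C³` with coordinates `x, y, z` let
* `V₀ : y (z³ x + y⁵) = 0`, and
* `V₁ : y (z³ x + y⁵ + z² y²) = 0`.

The two surface germs at `0` are topologically equisingular: with
`h (y, z) = -(y² / z) · min (1, |z|³ / |y|⁵)`, which is continuous on `C²` (with `h = 0` where
`y = 0` or `z = 0`), the shear `(x, y, z) ↦ (x + h (y, z), y, z)` is a homeomorphism of `C³` that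
fixes the origin and carries `V₀` onto `V₁` near the origin.

The tangent cones are `y z³ x = 0` and `y z² (z x + y²) = 0`.  Hence the exceptional variety of `V₀`
in `P²` is the triangle `x y z = 0`, which has no cut point, while the exceptional variety of `V₁` is
`y z (x z + y²) = 0`: two lines and a conic, all passing through `[1 : 0 : 0]`, the conic meeting the
line `y = 0` also in `[0 : 0 : 1]`, and the line `z = 0` being attached to the rest only at
`[1 : 0 : 0]`.  So `[1 : 0 : 0]` is a cut point, and the two exceptional varieties are not even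
homeomorphic.
-/

/-- Complex projective space `P^(n-1)` of lines through the origin of `C^n`. -/
def PSpace (n : ℕ) : Type := Projectivization ℂ (Fin n → ℂ)

/-- It carries the quotient topology from `C^n \ {0}`. -/
noncomputable instance (n : ℕ) : TopologicalSpace (PSpace n) :=
  inferInstanceAs (TopologicalSpace (Quotient (projectivizationSetoid ℂ (Fin n → ℂ))))

/-- The line spanned by a nonzero vector. -/
noncomputable def lineOf {n : ℕ} (v : Fin n → ℂ) (hv : v ≠ 0) : PSpace n := Projectivization.mk ℂ v hv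

/-- The blow-up of `C^n` at the origin: pairs (point, line through the origin containing it). -/
def BlowUp (n : ℕ) : Type :=
  {p : (Fin n → ℂ) × PSpace n // p.1 ∈ Projectivization.submodule (K := ℂ) (V := Fin n → ℂ) p.2}

noncomputable instance (n : ℕ) : TopologicalSpace (BlowUp n) :=
  inferInstanceAs (TopologicalSpace
    {p : (Fin n → ℂ) × PSpace n // p.1 ∈ Projectivization.submodule (K := ℂ) (V := Fin n → ℂ) p.2})

/-- The blow-down map `T`. -/
def BlowUp.T {n : ℕ} (p : BlowUp n) : Fin n → ℂ := p.1.1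

/-- The point of the exceptional divisor `T⁻¹(0)` given by a line. -/
def excPoint {n : ℕ} (l : PSpace n) : BlowUp n := ⟨(0, l), Submodule.zero_mem _⟩

/-- The proper transform of `V`: the closure of `T⁻¹(V \ {0})`. -/
def properTransform {n : ℕ} (V : Set (Fin n → ℂ)) : Set (BlowUp n) :=
  closure {p | p.T ∈ V ∧ p.T ≠ 0}

/-- The exceptional variety of `V`: the intersection of the proper transform with the exceptional
divisor `T⁻¹(0) = P^(n-1)`. -/
def excVariety {n : ℕ} (V : Set (Fin n → ℂ)) : Set (PSpace n) :=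
  {l | excPoint l ∈ properTransform V}

/-- The germs `(V, P)` and `(V', P')` are topologically equisingular: a homeomorphism from an open
neighbourhood of `P` onto an open neighbourhood of `P'` carries `P` to `P'` and `V` onto `V'`. -/
def TopEquisingular {X X' : Type} [TopologicalSpace X] [TopologicalSpace X']
    (V : Set X) (P : X) (V' : Set X') (P' : X') : Prop :=
  ∃ h : OpenPartialHomeomorph X X', P ∈ h.source ∧ h P = P' ∧ h '' (V ∩ h.source) = V' ∩ h.target

/-- The zero set of a polynomial in `C^n`. -/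
def zeroSet {n : ℕ} (f : MvPolynomial (Fin n) ℂ) : Set (Fin n → ℂ) :=
  {v | MvPolynomial.eval v f = 0}

/-- `f₀ = y (z³ x + y⁵)`, with `x, y, z` the coordinates number 0, 1, 2. -/
noncomputable def f₀ : MvPolynomial (Fin 3) ℂ :=
  MvPolynomial.X 1 * (MvPolynomial.X 2 ^ 3 * MvPolynomial.X 0 + MvPolynomial.X 1 ^ 5)

/-- `f₁ = y (z³ x + y⁵ + z² y²)`. -/
noncomputable def f₁ : MvPolynomial (Fin 3) ℂ :=
  MvPolynomial.X 1 * (MvPolynomial.X 2 ^ 3 * MvPolynomial.X 0 + MvPolynomial.X 1 ^ 5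
    + MvPolynomial.X 2 ^ 2 * MvPolynomial.X 1 ^ 2)

/-- `(V, 0)` is a hypersurface germ of `C^n`: near `0` the set `V` is the zero set of a convergent
power series `f` that is not identically zero near `0` and has `f 0 = 0`. -/
def IsHypersurfaceGerm {n : ℕ} (V : Set (Fin n → ℂ)) : Prop :=
  ∃ f : (Fin n → ℂ) → ℂ, AnalyticAt ℂ f 0 ∧ f 0 = 0 ∧ (¬ ∀ᶠ v in nhds 0, f v = 0) ∧
    ∀ᶠ v in nhds 0, (v ∈ V ↔ f v = 0)

/-- The assertion asked about in Q1. -/
def QuestionB : Prop :=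
  ∀ r : ℕ, 2 ≤ r → ∀ V V' : Set (Fin (r + 1) → ℂ),
    IsHypersurfaceGerm V → IsHypersurfaceGerm V' → TopEquisingular V 0 V' 0 →
    ∃ F : excVariety V ≃ₜ excVariety V', ∀ P : excVariety V,
      TopEquisingular (excVariety V) (P : PSpace (r + 1)) (excVariety V') (F P) ∧
      TopEquisingular (properTransform V) (excPoint (P : PSpace (r + 1)))
        (properTransform V') (excPoint (F P : PSpace (r + 1)))

/-! ### the shear -/

/-- The function `h (y, z) = -(y² / z) · min (1, |z|³ / |y|⁵)`. -/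
noncomputable def hh (y z : ℂ) : ℂ := -(y ^ 2 / z) * ((min 1 (‖z‖ ^ 3 / ‖y‖ ^ 5) : ℝ) : ℂ)

theorem hh_bound (y z : ℂ) : ‖hh y z‖ ^ 3 ≤ ‖y‖ := by
  by_cases hz : z = 0
  · unfold hh
    rw [hz]
    simp
  by_cases hy : y = 0
  · unfold hh
    rw [hy]
    simp
  have hz' : 0 < ‖z‖ := norm_pos_iff.mpr hz
  have hy' : 0 < ‖y‖ := norm_pos_iff.mpr hy
  set a := ‖y‖ with ha
  set b := ‖z‖ with hb
  set t : ℝ := b ^ 3 / a ^ 5 with ht
  have ht0 : 0 < t := by positivity
  have hm0 : 0 < min 1 t := lt_min one_pos ht0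
  have h1 : ‖hh y z‖ = a ^ 2 / b * min 1 t := by
    unfold hh
    rw [norm_mul, norm_neg, norm_div, norm_pow, Complex.norm_real, Real.norm_of_nonneg hm0.le]
  rw [h1, mul_pow, div_pow]
  have hb3 : b ^ 3 = t * a ^ 5 := by
    rw [ht]
    field_simp
  rw [hb3]
  have h2 : (a ^ 2) ^ 3 / (t * a ^ 5) * min 1 t ^ 3 = a * (min 1 t ^ 3 / t) := by
    field_simp
  rw [h2]
  have h3 : min 1 t ^ 3 / t ≤ 1 := by
    rw [div_le_one ht0]
    have h4 : min 1 t ≤ 1 := min_le_left _ _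
    have h5 : min 1 t ≤ t := min_le_right _ _
    have h6 : min 1 t ^ 3 ≤ min 1 t := by
      have := pow_le_one₀ (n := 2) hm0.le h4
      calc min 1 t ^ 3 = min 1 t * min 1 t ^ 2 := by ring
        _ ≤ min 1 t * 1 := mul_le_mul_of_nonneg_left this hm0.le
        _ = min 1 t := mul_one _
    linarith
  calc a * (min 1 t ^ 3 / t) ≤ a * 1 := mul_le_mul_of_nonneg_left h3 hy'.le
    _ = a := mul_one a

theorem hh_cont_norm (y z : ℂ) : ‖hh y z‖ = ‖y‖ ^ 2 / ‖z‖ * min 1 (‖z‖ ^ 3 / ‖y‖ ^ 5) := by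
  unfold hh
  rw [norm_mul, norm_neg, norm_div, norm_pow, Complex.norm_real, Real.norm_of_nonneg (by positivity)]

theorem hh_cont_b (y z : ℂ) : ‖hh y z‖ ≤ ‖y‖ ^ 2 / ‖z‖ := by
  rw [hh_cont_norm]
  calc ‖y‖ ^ 2 / ‖z‖ * min 1 (‖z‖ ^ 3 / ‖y‖ ^ 5) ≤ ‖y‖ ^ 2 / ‖z‖ * 1 :=
        mul_le_mul_of_nonneg_left (min_le_left _ _) (by positivity)
    _ = ‖y‖ ^ 2 / ‖z‖ := mul_one _

theorem hh_cont_c (y z : ℂ) : ‖hh y z‖ ≤ ‖z‖ ^ 2 / ‖y‖ ^ 3 := by
  rw [hh_cont_norm]
  have h1 : ‖y‖ ^ 2 / ‖z‖ * min 1 (‖z‖ ^ 3 / ‖y‖ ^ 5) ≤ ‖y‖ ^ 2 / ‖z‖ * (‖z‖ ^ 3 / ‖y‖ ^ 5) :=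
    mul_le_mul_of_nonneg_left (min_le_right _ _) (by positivity)
  refine h1.trans ?_
  rcases eq_or_ne z 0 with hz | hz
  · subst hz; simp
  rcases eq_or_ne y 0 with hy | hy
  · subst hy; simp
  have hz' : ‖z‖ ≠ 0 := norm_ne_zero_iff.2 hz
  have hy' : ‖y‖ ≠ 0 := norm_ne_zero_iff.2 hy
  apply le_of_eq
  field_simp

theorem hh_cont_d (y z : ℂ) : ‖hh y z‖ ≤ ‖y‖ ^ (1 / 3 : ℝ) := by
  have h := Real.rpow_le_rpow (by positivity) (hh_bound y z) (by norm_num : (0 : ℝ) ≤ 1 / 3)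
  have e : (‖hh y z‖ ^ 3) ^ (1 / 3 : ℝ) = ‖hh y z‖ := by
    have := Real.pow_rpow_inv_natCast (norm_nonneg (hh y z)) (by norm_num : (3 : ℕ) ≠ 0)
    norm_num at this ⊢
    exact this
  rwa [e] at h

theorem hh_cont : Continuous (fun p : ℂ × ℂ => hh p.1 p.2) := by
  rw [continuous_iff_continuousAt]
  rintro ⟨y0, z0⟩
  by_cases hz : z0 = 0
  · by_cases hy : y0 = 0
    · subst hz; subst hy
      show Filter.Tendsto (fun p : ℂ × ℂ => hh p.1 p.2) (nhds (0, 0)) (nhds (hh 0 0))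
      have h0 : hh 0 0 = 0 := by simp [hh]
      rw [h0]
      refine squeeze_zero_norm (a := fun p : ℂ × ℂ => ‖p.1‖ ^ (1 / 3 : ℝ)) (fun p => hh_cont_d p.1 p.2) ?_
      have hc : Continuous (fun p : ℂ × ℂ => ‖p.1‖ ^ (1 / 3 : ℝ)) :=
        (continuous_fst.norm).rpow_const (fun _ => Or.inr (by norm_num))
      have := hc.tendsto ((0, 0) : ℂ × ℂ)
      simpa using this
    · subst hz
      show Filter.Tendsto (fun p : ℂ × ℂ => hh p.1 p.2) (nhds (y0, 0)) (nhds (hh y0 0))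
      have h0 : hh y0 0 = 0 := by simp [hh]
      rw [h0]
      refine squeeze_zero_norm (a := fun p : ℂ × ℂ => ‖p.2‖ ^ 2 / ‖p.1‖ ^ 3) (fun p => hh_cont_c p.1 p.2) ?_
      have hc : ContinuousAt (fun p : ℂ × ℂ => ‖p.2‖ ^ 2 / ‖p.1‖ ^ 3) (y0, 0) :=
        ContinuousAt.div (by fun_prop) (by fun_prop) (pow_ne_zero 3 (norm_ne_zero_iff.2 hy))
      have := hc.tendsto
      simpa using this
  · by_cases hy : y0 = 0
    · subst hy
      show Filter.Tendsto (fun p : ℂ × ℂ => hh p.1 p.2) (nhds (0, z0)) (nhds (hh 0 z0))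
      have h0 : hh 0 z0 = 0 := by simp [hh]
      rw [h0]
      refine squeeze_zero_norm (a := fun p : ℂ × ℂ => ‖p.1‖ ^ 2 / ‖p.2‖) (fun p => hh_cont_b p.1 p.2) ?_
      have hc : ContinuousAt (fun p : ℂ × ℂ => ‖p.1‖ ^ 2 / ‖p.2‖) (0, z0) :=
        ContinuousAt.div (by fun_prop) (by fun_prop) (norm_ne_zero_iff.2 hz)
      have := hc.tendsto
      simpa using this
    · unfold hh
      have h1 : ContinuousAt (fun p : ℂ × ℂ => p.1 ^ 2 / p.2) (y0, z0) :=
        ContinuousAt.div (by fun_prop) (by fun_prop) hz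
      have h2 : ContinuousAt (fun p : ℂ × ℂ => ‖p.2‖ ^ 3 / ‖p.1‖ ^ 5) (y0, z0) :=
        ContinuousAt.div (by fun_prop) (by fun_prop) (pow_ne_zero 5 (norm_ne_zero_iff.2 hy))
      have h3 : ContinuousAt (fun p : ℂ × ℂ => min 1 (‖p.2‖ ^ 3 / ‖p.1‖ ^ 5)) (y0, z0) :=
        continuousAt_const.min h2
      exact h1.neg.mul (Complex.continuous_ofReal.continuousAt.comp h3)

theorem sets_eq (x y z : ℂ) (hx : ‖x‖ < 1 / 4) (hy : ‖y‖ < 1 / 64) :
    (y * (z ^ 3 * x + y ^ 5) = 0 ↔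
      y * (z ^ 3 * (x + hh y z) + y ^ 5 + z ^ 2 * y ^ 2) = 0) := by
  by_cases hy0 : y = 0
  · simp [hy0]
  have ha : 0 < ‖y‖ := norm_pos_iff.mpr hy0
  by_cases hc : ‖y‖ ^ 5 ≤ ‖z‖ ^ 3
  · have hz0 : z ≠ 0 := by
      rintro rfl
      have h5 : 0 < ‖y‖ ^ 5 := by positivity
      simp at hc
      linarith
    have hmin : min 1 (‖z‖ ^ 3 / ‖y‖ ^ 5) = 1 := by
      apply min_eq_left
      rw [le_div_iff₀ (by positivity)]
      linarith
    have hhh : hh y z = -(y ^ 2 / z) := by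
      unfold hh
      rw [hmin]
      simp
    have he : z ^ 3 * (x + hh y z) + y ^ 5 + z ^ 2 * y ^ 2 = z ^ 3 * x + y ^ 5 := by
      rw [hhh]
      field_simp
      ring
    rw [he]
  · push Not at hc
    have hb0 : 0 ≤ ‖z‖ := norm_nonneg z
    have hH : ‖hh y z‖ < 1 / 4 := by
      apply lt_of_pow_lt_pow_left₀ 3 (by norm_num)
      have := hh_bound y z
      norm_num
      linarith
    have hz2 : ‖z‖ ^ 2 < ‖y‖ ^ 3 / 4 := by
      apply lt_of_pow_lt_pow_left₀ 3 (by positivity)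
      have h1 : (‖z‖ ^ 2) ^ 3 = (‖z‖ ^ 3) ^ 2 := by ring
      have h2 : (‖z‖ ^ 3) ^ 2 < (‖y‖ ^ 5) ^ 2 := by
        apply pow_lt_pow_left₀ hc (by positivity) (by norm_num)
      have h3 : (‖y‖ ^ 5) ^ 2 = ‖y‖ ^ 9 * ‖y‖ := by ring
      have h4 : ‖y‖ ^ 9 * ‖y‖ ≤ ‖y‖ ^ 9 * (1 / 64) :=
        mul_le_mul_of_nonneg_left hy.le (by positivity)
      have h5 : (‖y‖ ^ 3 / 4) ^ 3 = ‖y‖ ^ 9 * (1 / 64) := by ring
      rw [h1, h5]
      linarith
    have ha5 : 0 < ‖y‖ ^ 5 := by positivity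
    have hb3 : 0 ≤ ‖z‖ ^ 3 := by positivity
    have t1 : ‖z ^ 3 * x‖ ≤ ‖y‖ ^ 5 / 4 := by
      rw [norm_mul, norm_pow]
      have : ‖z‖ ^ 3 * ‖x‖ ≤ ‖y‖ ^ 5 * (1 / 4) :=
        mul_le_mul hc.le hx.le (norm_nonneg _) ha5.le
      linarith
    have t2 : ‖z ^ 3 * hh y z‖ ≤ ‖y‖ ^ 5 / 4 := by
      rw [norm_mul, norm_pow]
      have : ‖z‖ ^ 3 * ‖hh y z‖ ≤ ‖y‖ ^ 5 * (1 / 4) :=
        mul_le_mul hc.le hH.le (norm_nonneg _) ha5.le
      linarith
    have t3 : ‖z ^ 2 * y ^ 2‖ ≤ ‖y‖ ^ 5 / 4 := by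
      rw [norm_mul, norm_pow, norm_pow]
      have : ‖z‖ ^ 2 * ‖y‖ ^ 2 ≤ (‖y‖ ^ 3 / 4) * ‖y‖ ^ 2 :=
        mul_le_mul_of_nonneg_right hz2.le (by positivity)
      have h5 : (‖y‖ ^ 3 / 4) * ‖y‖ ^ 2 = ‖y‖ ^ 5 / 4 := by ring
      linarith
    have hy5 : ‖y ^ 5‖ = ‖y‖ ^ 5 := norm_pow y 5
    have n1 : z ^ 3 * x + y ^ 5 ≠ 0 := by
      intro h0
      have h1 : y ^ 5 = -(z ^ 3 * x) := by linear_combination h0
      have h2 : ‖y‖ ^ 5 = ‖z ^ 3 * x‖ := by rw [← hy5, h1, norm_neg]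
      linarith
    have n2 : z ^ 3 * (x + hh y z) + y ^ 5 + z ^ 2 * y ^ 2 ≠ 0 := by
      intro h0
      have h1 : y ^ 5 = -(z ^ 3 * x + z ^ 3 * hh y z + z ^ 2 * y ^ 2) := by
        linear_combination h0
      have h2 : ‖y‖ ^ 5 = ‖z ^ 3 * x + z ^ 3 * hh y z + z ^ 2 * y ^ 2‖ := by
        rw [← hy5, h1, norm_neg]
      have h3 := norm_add₃_le (a := z ^ 3 * x) (b := z ^ 3 * hh y z) (c := z ^ 2 * y ^ 2)
      linarith
    constructor
    · intro h
      rcases mul_eq_zero.mp h with h | h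
      · exact absurd h hy0
      · exact absurd h n1
    · intro h
      rcases mul_eq_zero.mp h with h | h
      · exact absurd h hy0
      · exact absurd h n2

theorem shear_cont (k : ℂ × ℂ → ℂ) (hk : Continuous k) :
    Continuous (fun v : Fin 3 → ℂ => (![v 0 + k (v 1, v 2), v 1, v 2] : Fin 3 → ℂ)) := by
  have h : Continuous (fun v : Fin 3 → ℂ => k (v 1, v 2)) :=
    hk.comp ((continuous_apply 1).prodMk (continuous_apply 2))
  refine continuous_pi ?_
  intro i
  fin_cases i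
  · show Continuous (fun v : Fin 3 → ℂ => v 0 + k (v 1, v 2))
    exact (continuous_apply 0).add h
  · show Continuous (fun v : Fin 3 → ℂ => v 1)
    exact continuous_apply 1
  · show Continuous (fun v : Fin 3 → ℂ => v 2)
    exact continuous_apply 2

noncomputable def shearOf (k : ℂ × ℂ → ℂ) (hk : Continuous k) : (Fin 3 → ℂ) ≃ₜ (Fin 3 → ℂ) where
  toFun v := ![v 0 + k (v 1, v 2), v 1, v 2]
  invFun v := ![v 0 + -k (v 1, v 2), v 1, v 2]
  left_inv v := by ext i; fin_cases i <;> simp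
  right_inv v := by ext i; fin_cases i <;> simp
  continuous_toFun := shear_cont k hk
  continuous_invFun := shear_cont (fun p => -k p) hk.neg

theorem shear_mem (v : Fin 3 → ℂ) (h0 : ‖v 0‖ < 1 / 4) (h1 : ‖v 1‖ < 1 / 64) :
    v ∈ zeroSet f₀ ↔ shearOf (fun p : ℂ × ℂ => hh p.1 p.2) hh_cont v ∈ zeroSet f₁ := by
  have e0 : v ∈ zeroSet f₀ ↔ v 1 * (v 2 ^ 3 * v 0 + v 1 ^ 5) = 0 := by
    simp [zeroSet, f₀]
  have e1 : ∀ u : Fin 3 → ℂ, u ∈ zeroSet f₁ ↔
      u 1 * (u 2 ^ 3 * u 0 + u 1 ^ 5 + u 2 ^ 2 * u 1 ^ 2) = 0 := by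
    intro u
    simp [zeroSet, f₁]
  rw [e0, e1]
  exact sets_eq _ _ _ h0 h1

theorem equi_aux (e : (Fin 3 → ℂ) ≃ₜ (Fin 3 → ℂ)) (he : e 0 = 0) (V V' U : Set (Fin 3 → ℂ))
    (hU : IsOpen U) (h0 : (0 : Fin 3 → ℂ) ∈ U) (h : ∀ v ∈ U, (v ∈ V ↔ e v ∈ V')) :
    TopEquisingular V 0 V' 0 := by
  have hsrc : (e.toOpenPartialHomeomorph.restrOpen U hU).source = U := by
    rw [OpenPartialHomeomorph.restrOpen_source]
    simp
  refine ⟨e.toOpenPartialHomeomorph.restrOpen U hU, ?_, he, ?_⟩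
  · rw [hsrc]
    exact h0
  · set g := e.toOpenPartialHomeomorph.restrOpen U hU with hg
    have hval : ∀ v, g v = e v := fun v => rfl
    ext w
    constructor
    · rintro ⟨v, ⟨hv1, hv2⟩, rfl⟩
      refine ⟨?_, g.map_source hv2⟩
      rw [hval]
      rw [hsrc] at hv2
      exact (h v hv2).1 hv1
    · rintro ⟨hw1, hw2⟩
      have hs := g.map_target hw2
      refine ⟨g.symm w, ⟨?_, hs⟩, g.right_inv hw2⟩
      have hs' := hs
      rw [hsrc] at hs'
      rw [h _ hs', ← hval, g.right_inv hw2]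
      exact hw1

theorem equisingular : TopEquisingular (zeroSet f₀) 0 (zeroSet f₁) 0 := by
  have hU : IsOpen {v : Fin 3 → ℂ | ‖v 0‖ < 1 / 4 ∧ ‖v 1‖ < 1 / 64} :=
    (isOpen_lt (continuous_apply 0).norm continuous_const).inter
      (isOpen_lt (continuous_apply 1).norm continuous_const)
  refine equi_aux (shearOf (fun p : ℂ × ℂ => hh p.1 p.2) hh_cont) ?_ _ _ _ hU ?_ ?_
  · have h00 : hh 0 0 = 0 := by simp [hh]
    show (![(0 : ℂ) + hh 0 0, 0, 0] : Fin 3 → ℂ) = 0
    rw [h00]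
    ext i
    fin_cases i <;> simp
  · constructor <;> simp
  · rintro v ⟨h1, h2⟩
    exact shear_mem v h1 h2

/-! ### the exceptional varieties -/

theorem exc_upper_wd {n : ℕ} (F : (Fin n → ℂ) → ℂ) (m : ℕ)
    (hhom : ∀ (c : ℂ) (v : Fin n → ℂ), F (c • v) = c ^ m * F v) (c : ℂ) (hc : c ≠ 0)
    (v : Fin n → ℂ) : ‖F (c • v)‖ / ‖c • v‖ ^ m = ‖F v‖ / ‖v‖ ^ m := by
  rw [hhom, norm_mul, norm_pow, norm_smul, mul_pow, mul_div_mul_left]
  exact pow_ne_zero _ (norm_ne_zero_iff.mpr hc)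

/-- upper bound for the exceptional variety: if `F` is homogeneous of degree `m` and every point of `V`
satisfies `‖F v‖ ≤ ‖v‖ ^ (m+1)`, then `F` vanishes on the exceptional variety of `V`. -/
theorem exc_upper {n : ℕ} (V : Set (Fin n → ℂ)) (F : (Fin n → ℂ) → ℂ) (m : ℕ) (hF : Continuous F)
    (hhom : ∀ (c : ℂ) (v : Fin n → ℂ), F (c • v) = c ^ m * F v)
    (hV : ∀ v ∈ V, ‖F v‖ ≤ ‖v‖ ^ (m + 1))
    (w : Fin n → ℂ) (hw : w ≠ 0) (h : lineOf w hw ∈ excVariety V) : F w = 0 := by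
  let g : {v : Fin n → ℂ // v ≠ 0} → ℝ := fun v => ‖F v‖ / ‖(v : Fin n → ℂ)‖ ^ m
  have hgc : Continuous g := by
    refine (continuous_norm.comp (hF.comp continuous_subtype_val)).div
      ((continuous_norm.comp continuous_subtype_val).pow m) fun v => ?_
    exact pow_ne_zero _ (norm_ne_zero_iff.mpr v.2)
  have hg : ∀ a b : {v : Fin n → ℂ // v ≠ 0}, (projectivizationSetoid ℂ (Fin n → ℂ)).r a b →
      g a = g b := by
    rintro a b ⟨c, hc⟩
    have h1 : (c : ℂ) • (b : Fin n → ℂ) = a := hc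
    show ‖F a‖ / ‖(a : Fin n → ℂ)‖ ^ m = ‖F b‖ / ‖(b : Fin n → ℂ)‖ ^ m
    rw [← h1]
    exact exc_upper_wd F m hhom c c.ne_zero b
  let φ : PSpace n → ℝ := Quotient.lift (s := projectivizationSetoid ℂ (Fin n → ℂ)) g hg
  have hφ : Continuous φ := Continuous.quotient_lift hgc hg
  have hmk : ∀ (u : Fin n → ℂ) (hu : u ≠ 0), φ (Projectivization.mk ℂ u hu) = ‖F u‖ / ‖u‖ ^ m :=
    fun u hu => rfl
  let C : Set (BlowUp n) := {p | φ p.1.2 ≤ ‖p.1.1‖}
  have hC : IsClosed C := isClosed_le (hφ.comp (continuous_snd.comp continuous_subtype_val))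
    (continuous_norm.comp (continuous_fst.comp continuous_subtype_val))
  have hsub : {p : BlowUp n | p.T ∈ V ∧ p.T ≠ 0} ⊆ C := by
    rintro ⟨⟨v, l⟩, hvl⟩ ⟨hp1, hp2⟩
    show φ l ≤ ‖v‖
    have hv : v ∈ V := hp1
    have hv0 : v ≠ 0 := hp2
    have hvn : 0 < ‖v‖ := norm_pos_iff.mpr hv0
    obtain ⟨u, hu, rfl⟩ : ∃ u, ∃ hu : u ≠ 0, l = Projectivization.mk ℂ u hu :=
      ⟨Projectivization.rep l, Projectivization.rep_nonzero l, (Projectivization.mk_rep l).symm⟩
    have hmem : v ∈ Projectivization.submodule (K := ℂ) (V := Fin n → ℂ)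
      (Projectivization.mk ℂ u hu) := hvl
    rw [Projectivization.submodule_mk, Submodule.mem_span_singleton] at hmem
    obtain ⟨c, hc⟩ := hmem
    have hc0 : c ≠ 0 := by
      rintro rfl
      exact hv0 (by rw [← hc, zero_smul])
    rw [hmk, ← exc_upper_wd F m hhom c hc0 u, hc, div_le_iff₀ (pow_pos hvn m)]
    have := hV v hv
    rwa [pow_succ, mul_comm] at this
  have h1 : excPoint (lineOf w hw) ∈ C := closure_minimal hsub hC h
  have h2 : φ (Projectivization.mk ℂ w hw) ≤ ‖(0 : Fin n → ℂ)‖ := h1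
  rw [hmk, norm_zero] at h2
  have hwn : 0 < ‖w‖ ^ m := pow_pos (norm_pos_iff.mpr hw) m
  have h3 : ‖F w‖ ≤ 0 := by
    rw [div_le_iff₀ hwn, zero_mul] at h2
    exact h2
  exact norm_le_zero_iff.mp h3

/-- lower bound for the exceptional variety: if `u σ → w` and `s σ → 0` as `σ → 0`, `σ ≠ 0`, with
`s σ ≠ 0` and `s σ • u σ ∈ V`, then the line of `w` is in the exceptional variety of `V`. -/
theorem exc_lower {n : ℕ} (V : Set (Fin n → ℂ)) (w : Fin n → ℂ) (hw : w ≠ 0)
    (u : ℂ → Fin n → ℂ) (s : ℂ → ℂ) (hu : Filter.Tendsto u (nhdsWithin 0 {0}ᶜ) (nhds w))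
    (hs : Filter.Tendsto s (nhdsWithin 0 {0}ᶜ) (nhds 0))
    (h : ∀ᶠ σ in nhdsWithin (0 : ℂ) {0}ᶜ, s σ ≠ 0 ∧ s σ • u σ ∈ V) :
    lineOf w hw ∈ excVariety V := by
  classical
  let u' : ℂ → {v : Fin n → ℂ // v ≠ 0} := fun σ => if h : u σ ≠ 0 then ⟨u σ, h⟩ else ⟨w, hw⟩
  have hne : ∀ᶠ σ in nhdsWithin (0 : ℂ) {0}ᶜ, u σ ≠ 0 := hu.eventually_ne hw
  have hu'1 : ∀ σ, u σ ≠ 0 → (u' σ).1 = u σ := by
    intro σ hσ
    simp only [u', dif_pos hσ]
  have hu' : Filter.Tendsto u' (nhdsWithin 0 {0}ᶜ) (nhds ⟨w, hw⟩) := by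
    rw [tendsto_subtype_rng]
    refine hu.congr' ?_
    filter_upwards [hne] with σ hσ
    exact (hu'1 σ hσ).symm
  have hq : Continuous (fun v : {v : Fin n → ℂ // v ≠ 0} => (lineOf v.1 v.2 : PSpace n)) :=
    continuous_quotient_mk'
  have hmem : ∀ σ, s σ • (u' σ).1 ∈ Projectivization.submodule (K := ℂ) (V := Fin n → ℂ)
      (lineOf (u' σ).1 (u' σ).2) := by
    intro σ
    unfold lineOf
    rw [Projectivization.submodule_mk]
    exact Submodule.smul_mem _ _ (Submodule.mem_span_singleton_self _)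
  let g : ℂ → BlowUp n := fun σ => ⟨(s σ • (u' σ).1, lineOf (u' σ).1 (u' σ).2), hmem σ⟩
  have hg : Filter.Tendsto g (nhdsWithin 0 {0}ᶜ) (nhds (excPoint (lineOf w hw))) := by
    have h1 : Filter.Tendsto (fun σ => ((s σ • (u' σ).1, lineOf (u' σ).1 (u' σ).2) :
        (Fin n → ℂ) × PSpace n)) (nhdsWithin 0 {0}ᶜ) (nhds (0, lineOf w hw)) := by
      refine Filter.Tendsto.prodMk_nhds ?_ ?_
      · have h2 : Filter.Tendsto (fun σ => (u' σ).1) (nhdsWithin 0 {0}ᶜ) (nhds w) :=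
          tendsto_subtype_rng.1 hu'
        have := hs.smul h2
        rwa [zero_smul] at this
      · exact (hq.tendsto ⟨w, hw⟩).comp hu'
    exact tendsto_subtype_rng.2 h1
  refine mem_closure_of_tendsto hg ?_
  filter_upwards [hne, h] with σ h1 h2
  have e : (g σ).T = s σ • u σ := by
    show s σ • (u' σ).1 = s σ • u σ
    rw [hu'1 σ h1]
  refine ⟨?_, ?_⟩
  · rw [e]; exact h2.2
  · rw [e]; exact smul_ne_zero h2.1 h1

theorem exc_zero (w : Fin 3 → ℂ) (hw : w ≠ 0) :
    lineOf w hw ∈ excVariety (zeroSet f₀) ↔ w 0 * w 1 * w 2 = 0 := by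
  have hmem : ∀ v : Fin 3 → ℂ, v ∈ zeroSet f₀ ↔ v 1 * (v 2 ^ 3 * v 0 + v 1 ^ 5) = 0 := by
    intro v
    simp [zeroSet, f₀]
  constructor
  · intro h
    have h1 := exc_upper (zeroSet f₀) (fun v => v 0 * v 1 * v 2 ^ 3) 5 (by fun_prop) ?_ ?_ w hw h
    · have h2 : w 0 * w 1 * w 2 ^ 3 = 0 := h1
      rcases mul_eq_zero.1 h2 with h3 | h3
      · rw [h3, zero_mul]
      · rw [pow_eq_zero_iff (by norm_num)] at h3
        rw [h3, mul_zero]
    · intro c v
      show (c * v 0) * (c * v 1) * (c * v 2) ^ 3 = c ^ 5 * (v 0 * v 1 * v 2 ^ 3)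
      ring
    · intro v hv
      rw [hmem] at hv
      have h2 : v 0 * v 1 * v 2 ^ 3 = -(v 1 ^ 6) := by linear_combination hv
      show ‖v 0 * v 1 * v 2 ^ 3‖ ≤ ‖v‖ ^ (5 + 1)
      rw [h2, norm_neg, norm_pow]
      exact pow_le_pow_left₀ (norm_nonneg _) (norm_le_pi_norm v 1) 6
  · intro h
    by_cases h1 : w 1 = 0
    · refine exc_lower (zeroSet f₀) w hw (fun _ => w) (fun σ => σ) tendsto_const_nhds
        (Filter.tendsto_id.mono_left nhdsWithin_le_nhds) ?_
      filter_upwards [self_mem_nhdsWithin] with σ hσ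
      refine ⟨hσ, ?_⟩
      rw [hmem]
      show (σ * w 1) * ((σ * w 2) ^ 3 * (σ * w 0) + (σ * w 1) ^ 5) = 0
      rw [h1]
      ring
    · have h02 : w 0 * w 2 = 0 := by
        have h2 : w 1 * (w 0 * w 2) = 0 := by linear_combination h
        exact (mul_eq_zero.1 h2).resolve_left h1
      refine exc_lower (zeroSet f₀) w hw (fun σ => ![w 0 + σ, w 1, w 2 + σ])
        (fun σ => -((w 0 + σ) * (w 2 + σ) ^ 3) / w 1 ^ 5) ?_ ?_ ?_
      · refine Filter.Tendsto.mono_left ?_ nhdsWithin_le_nhds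
        rw [tendsto_pi_nhds]
        intro i
        fin_cases i
        · have : Continuous fun σ : ℂ => w 0 + σ := by fun_prop
          simpa using this.tendsto 0
        · simpa using (tendsto_const_nhds : Filter.Tendsto (fun _ : ℂ => w 1) (nhds 0) (nhds (w 1)))
        · have : Continuous fun σ : ℂ => w 2 + σ := by fun_prop
          simpa using this.tendsto 0
      · refine Filter.Tendsto.mono_left ?_ nhdsWithin_le_nhds
        have hc : Continuous fun σ : ℂ => -((w 0 + σ) * (w 2 + σ) ^ 3) / w 1 ^ 5 := by fun_prop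
        have h3 := hc.tendsto 0
        have h4 : -((w 0 + 0) * (w 2 + 0) ^ 3) / w 1 ^ 5 = 0 := by
          rw [add_zero, add_zero]
          have h5 : w 0 * w 2 ^ 3 = 0 := by linear_combination (w 2) ^ 2 * h02
          rw [h5]
          simp
        rwa [h4] at h3
      · have hne : ∀ a : ℂ, ∀ᶠ σ in nhdsWithin (0 : ℂ) {0}ᶜ, a + σ ≠ 0 := by
          intro a
          by_cases ha : a = 0
          · filter_upwards [self_mem_nhdsWithin] with σ hσ
            rw [ha, zero_add]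
            exact hσ
          · have h3 : ∀ᶠ σ in nhdsWithin (0 : ℂ) {0}ᶜ, σ ≠ -a :=
              eventually_ne_nhdsWithin (by
                intro h4
                exact ha (neg_eq_zero.1 h4.symm))
            filter_upwards [h3] with σ hσ h4
            exact hσ (eq_neg_of_add_eq_zero_right h4)
        filter_upwards [hne (w 0), hne (w 2)] with σ hσ0 hσ2
        refine ⟨div_ne_zero (neg_ne_zero.2 (mul_ne_zero hσ0 (pow_ne_zero _ hσ2)))
          (pow_ne_zero _ h1), ?_⟩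
        rw [hmem]
        set t : ℂ := -((w 0 + σ) * (w 2 + σ) ^ 3) / w 1 ^ 5 with ht
        have h3 : t * w 1 ^ 5 = -((w 0 + σ) * (w 2 + σ) ^ 3) := by
          rw [ht, div_mul_cancel₀ _ (pow_ne_zero _ h1)]
        show (t * w 1) * ((t * (w 2 + σ)) ^ 3 * (t * (w 0 + σ)) + (t * w 1) ^ 5) = 0
        linear_combination (t * w 1) * t ^ 4 * h3

theorem exc_one (w : Fin 3 → ℂ) (hw : w ≠ 0) :
    lineOf w hw ∈ excVariety (zeroSet f₁) ↔ w 1 * w 2 * (w 0 * w 2 + w 1 ^ 2) = 0 := by 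
  have hev : ∀ v : Fin 3 → ℂ, v ∈ zeroSet f₁ ↔
      v 1 * (v 2 ^ 3 * v 0 + v 1 ^ 5 + v 2 ^ 2 * v 1 ^ 2) = 0 := by
    intro v
    simp [zeroSet, f₁]
  constructor
  · intro h
    have h1 := exc_upper (zeroSet f₁) (fun v => v 1 * v 2 ^ 2 * (v 0 * v 2 + v 1 ^ 2)) 5
      (by fun_prop) (by
        intro c v
        simp only [Pi.smul_apply, smul_eq_mul]
        ring) (by
        intro v hv
        rw [hev] at hv
        have h2 : v 1 * v 2 ^ 2 * (v 0 * v 2 + v 1 ^ 2) = - v 1 ^ 6 := by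
          linear_combination hv
        show ‖v 1 * v 2 ^ 2 * (v 0 * v 2 + v 1 ^ 2)‖ ≤ ‖v‖ ^ (5 + 1)
        rw [h2, norm_neg, norm_pow]
        exact pow_le_pow_left₀ (norm_nonneg _) (norm_le_pi_norm v 1) 6) w hw h
    have h1' : w 1 * w 2 ^ 2 * (w 0 * w 2 + w 1 ^ 2) = 0 := h1
    have h3 : (w 1 * w 2 * (w 0 * w 2 + w 1 ^ 2)) * w 2 = 0 := by
      linear_combination h1'
    rcases mul_eq_zero.1 h3 with h4 | h4
    · exact h4
    · rw [h4]; ring
  · intro h
    by_cases hw1 : w 1 = 0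
    · refine exc_lower (zeroSet f₁) w hw (fun _ => w) (fun σ => σ) tendsto_const_nhds
        (Filter.tendsto_id.mono_left nhdsWithin_le_nhds) ?_
      filter_upwards [self_mem_nhdsWithin] with σ hσ
      refine ⟨hσ, ?_⟩
      rw [hev]
      simp [hw1]
    · have h2 : w 2 * (w 0 * w 2 + w 1 ^ 2) = 0 := by
        rw [mul_assoc] at h
        rcases mul_eq_zero.1 h with h3 | h3
        · exact absurd h3 hw1
        · exact h3
      set s : ℂ → ℂ := fun σ => -((w 2 + σ) ^ 2 * (w 0 * (w 2 + σ) + w 1 ^ 2)) / w 1 ^ 5 with hs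
      have hscont : Continuous s := by
        rw [hs]
        fun_prop
      have hs0 : s 0 = 0 := by
        simp only [hs, add_zero]
        have : w 2 ^ 2 * (w 0 * w 2 + w 1 ^ 2) = 0 := by
          linear_combination w 2 * h2
        rw [this]
        simp
      have hucont : Continuous (fun σ : ℂ => (![w 0, w 1, w 2 + σ] : Fin 3 → ℂ)) := by
        refine continuous_pi ?_
        intro i
        fin_cases i
        · exact continuous_const
        · exact continuous_const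
        · exact continuous_const.add continuous_id
      have hu0 : (![w 0, w 1, w 2 + 0] : Fin 3 → ℂ) = w := by
        funext i
        fin_cases i <;> simp
      refine exc_lower (zeroSet f₁) w hw (fun σ => ![w 0, w 1, w 2 + σ]) s ?_ ?_ ?_
      · have h3 := hucont.tendsto 0
        rw [hu0] at h3
        exact h3.mono_left nhdsWithin_le_nhds
      · have h3 := hscont.tendsto 0
        rw [hs0] at h3
        exact h3.mono_left nhdsWithin_le_nhds
      · have hnz : ∀ᶠ σ in nhdsWithin (0 : ℂ) {0}ᶜ,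
            w 2 + σ ≠ 0 ∧ w 0 * (w 2 + σ) + w 1 ^ 2 ≠ 0 := by
          by_cases hw2 : w 2 = 0
          · have hc : Continuous (fun σ : ℂ => w 0 * (w 2 + σ) + w 1 ^ 2) := by fun_prop
            have h3 : ∀ᶠ σ in nhds (0 : ℂ), w 0 * (w 2 + σ) + w 1 ^ 2 ≠ 0 := by
              apply hc.continuousAt.eventually_ne
              rw [hw2]
              simpa using hw1
            filter_upwards [self_mem_nhdsWithin, h3.filter_mono nhdsWithin_le_nhds] with σ hσ hσ2
            refine ⟨?_, hσ2⟩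
            rw [hw2, zero_add]
            exact hσ
          · have h4 : w 0 * w 2 + w 1 ^ 2 = 0 := by
              rcases mul_eq_zero.1 h2 with h5 | h5
              · exact absurd h5 hw2
              · exact h5
            have hw0 : w 0 ≠ 0 := by
              intro h5
              rw [h5, zero_mul, zero_add] at h4
              exact hw1 (pow_eq_zero_iff (two_ne_zero) |>.1 h4)
            have hc : Continuous (fun σ : ℂ => w 2 + σ) := by fun_prop
            have h3 : ∀ᶠ σ in nhds (0 : ℂ), w 2 + σ ≠ 0 := by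
              apply hc.continuousAt.eventually_ne
              simpa using hw2
            filter_upwards [self_mem_nhdsWithin, h3.filter_mono nhdsWithin_le_nhds] with σ hσ hσ2
            refine ⟨hσ2, ?_⟩
            have h6 : w 0 * (w 2 + σ) + w 1 ^ 2 = w 0 * σ := by
              linear_combination h4
            rw [h6]
            exact mul_ne_zero hw0 hσ
        filter_upwards [hnz] with σ hσ
        have h5 : w 1 ^ 5 ≠ 0 := pow_ne_zero _ hw1
        refine ⟨?_, ?_⟩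
        · simp only [hs]
          exact div_ne_zero (neg_ne_zero.2 (mul_ne_zero (pow_ne_zero _ hσ.1) hσ.2)) h5
        · rw [hev]
          have h6 : s σ * w 1 ^ 5 = -((w 2 + σ) ^ 2 * (w 0 * (w 2 + σ) + w 1 ^ 2)) := by
            simp only [hs]
            exact div_mul_cancel₀ _ h5
          simp only [Pi.smul_apply, smul_eq_mul, Matrix.cons_val_zero, Matrix.cons_val_one,
            Matrix.cons_val]
          linear_combination (s σ * w 1) * s σ ^ 4 * h6

theorem lc_cont {X : Type*} [TopologicalSpace X] (f : X → Fin 3 → ℂ) (hf : Continuous f)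
    (h0 : ∀ x, f x ≠ 0) : Continuous (fun x => lineOf (f x) (h0 x)) := by
  have h1 : Continuous (fun x => (⟨f x, h0 x⟩ : {v : Fin 3 → ℂ // v ≠ 0})) := hf.subtype_mk h0
  exact (continuous_quotient_mk' (s := projectivizationSetoid ℂ (Fin 3 → ℂ))).comp h1

theorem lc_eq (v w : Fin 3 → ℂ) (hv : v ≠ 0) (hw : w ≠ 0) :
    lineOf v hv = lineOf w hw ↔ ∃ a : ℂ, a • w = v :=
  Projectivization.mk_eq_mk_iff' ℂ v w hv hw

theorem lc_caseB (i j : Fin 3) (hij : i ≠ j) (q : Fin 3 → ℂ) (hq : q ≠ 0) (hqi : q i ≠ 0)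
    (hqL : ∀ k, k ≠ i → k ≠ j → q k = 0) :
    IsPreconnected {l : PSpace 3 | l ≠ lineOf q hq ∧
      ∃ w hw, l = lineOf w hw ∧ ∀ k, k ≠ i → k ≠ j → w k = 0} := by
  set q2 : Fin 3 → ℂ := Pi.single j 1 with hq2
  have q2i : q2 i = 0 := by
    rw [hq2, Pi.single_eq_of_ne hij]
  have q2j : q2 j = 1 := by
    rw [hq2, Pi.single_eq_same]
  have q2k : ∀ k, k ≠ j → q2 k = 0 := by
    intro k hk
    rw [hq2, Pi.single_eq_of_ne hk]
  have h1 : ∀ a : ℂ, a • q + q2 ≠ 0 := by
    intro a h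
    have e1 := congrFun h i
    have e2 := congrFun h j
    simp only [Pi.add_apply, Pi.smul_apply, smul_eq_mul, Pi.zero_apply] at e1 e2
    rw [q2i, add_zero] at e1
    rcases mul_eq_zero.1 e1 with h3 | h3
    · rw [h3, q2j, zero_mul, zero_add] at e2
      exact one_ne_zero e2
    · exact hqi h3
  have hcont : Continuous (fun a : ℂ => lineOf (a • q + q2) (h1 a)) := by
    apply lc_cont
    fun_prop
  have hset : {l : PSpace 3 | l ≠ lineOf q hq ∧
      ∃ w hw, l = lineOf w hw ∧ ∀ k, k ≠ i → k ≠ j → w k = 0} =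
      Set.range (fun a : ℂ => lineOf (a • q + q2) (h1 a)) := by
    ext l
    constructor
    · rintro ⟨hl, w, hw, rfl, hwL⟩
      set α := w i / q i with hα
      set β := w j - α * q j with hβ
      have hwe : w = α • q + β • q2 := by
        funext k
        simp only [Pi.add_apply, Pi.smul_apply, smul_eq_mul]
        by_cases hki : k = i
        · rw [hki, q2i, hα]
          field_simp
          ring
        · by_cases hkj : k = j
          · rw [hkj, q2j, hβ]
            ring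
          · rw [hwL k hki hkj, hqL k hki hkj, q2k k hkj]
            ring
      have hβ0 : β ≠ 0 := by
        intro h
        apply hl
        rw [lc_eq]
        refine ⟨α, ?_⟩
        rw [hwe, h, zero_smul, add_zero]
      refine ⟨α / β, ?_⟩
      show lineOf _ _ = lineOf _ _
      symm
      rw [lc_eq]
      refine ⟨β, ?_⟩
      conv_rhs => rw [hwe]
      rw [smul_add, smul_smul, mul_div_cancel₀ _ hβ0]
    · rintro ⟨a, rfl⟩
      refine ⟨?_, _, h1 a, rfl, ?_⟩
      · intro h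
        rw [lc_eq] at h
        obtain ⟨c, hc⟩ := h
        have e1 := congrFun hc i
        have e2 := congrFun hc j
        simp only [Pi.add_apply, Pi.smul_apply, smul_eq_mul] at e1 e2
        rw [q2i, add_zero] at e1
        have e3 : c = a := mul_right_cancel₀ hqi e1
        rw [e3, q2j] at e2
        have : (1 : ℂ) = 0 := by linear_combination -e2
        exact one_ne_zero this
      · intro k hki hkj
        simp only [Pi.add_apply, Pi.smul_apply, smul_eq_mul]
        rw [hqL k hki hkj, q2k k hkj]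
        ring
  rw [hset]
  exact isPreconnected_range hcont

theorem lc_caseA (i j : Fin 3) (hij : i ≠ j) :
    IsPreconnected {l : PSpace 3 | ∃ w hw, l = lineOf w hw ∧ ∀ k, k ≠ i → k ≠ j → w k = 0} := by
  set v : ℂ × ℂ → Fin 3 → ℂ := fun p => p.1 • (Pi.single i 1 : Fin 3 → ℂ) + p.2 • (Pi.single j 1 : Fin 3 → ℂ) with hv
  have vi : ∀ p, v p i = p.1 := by
    intro p
    simp only [hv, Pi.add_apply, Pi.smul_apply, smul_eq_mul]
    rw [Pi.single_eq_same, Pi.single_eq_of_ne hij]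
    ring
  have vj : ∀ p, v p j = p.2 := by
    intro p
    simp only [hv, Pi.add_apply, Pi.smul_apply, smul_eq_mul]
    rw [Pi.single_eq_same, Pi.single_eq_of_ne hij.symm]
    ring
  have vk : ∀ p k, k ≠ i → k ≠ j → v p k = 0 := by
    intro p k hki hkj
    simp only [hv, Pi.add_apply, Pi.smul_apply, smul_eq_mul]
    rw [Pi.single_eq_of_ne hki, Pi.single_eq_of_ne hkj]
    ring
  have hv0 : ∀ p : {p : ℂ × ℂ // p ∈ ({0}ᶜ : Set (ℂ × ℂ))}, v p.1 ≠ 0 := by
    rintro ⟨p, hp⟩ h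
    apply hp
    have e1 := congrFun h i
    have e2 := congrFun h j
    simp only at e1 e2
    rw [vi] at e1
    rw [vj] at e2
    exact Prod.ext e1 e2
  have hconn : IsConnected ({0}ᶜ : Set (ℂ × ℂ)) := by
    apply isConnected_compl_singleton_of_one_lt_rank
    rw [rank_prod', Complex.rank_real_complex]
    norm_num
  haveI : PreconnectedSpace {p : ℂ × ℂ // p ∈ ({0}ᶜ : Set (ℂ × ℂ))} :=
    isPreconnected_iff_preconnectedSpace.1 hconn.isPreconnected
  have hcont : Continuous (fun p : {p : ℂ × ℂ // p ∈ ({0}ᶜ : Set (ℂ × ℂ))} => lineOf (v p.1) (hv0 p)) := by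
    apply lc_cont
    fun_prop
  have hset : {l : PSpace 3 | ∃ w hw, l = lineOf w hw ∧ ∀ k, k ≠ i → k ≠ j → w k = 0} =
      Set.range (fun p : {p : ℂ × ℂ // p ∈ ({0}ᶜ : Set (ℂ × ℂ))} => lineOf (v p.1) (hv0 p)) := by
    ext l
    constructor
    · rintro ⟨w, hw, rfl, hwL⟩
      have hwe : v (w i, w j) = w := by
        funext k
        by_cases hki : k = i
        · rw [hki, vi]
        · by_cases hkj : k = j
          · rw [hkj, vj]
          · rw [vk _ k hki hkj, hwL k hki hkj]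
      refine ⟨⟨(w i, w j), ?_⟩, ?_⟩
      · intro h
        apply hw
        rw [← hwe]
        have h' : (w i, w j) = (0 : ℂ × ℂ) := h
        rw [h']
        funext k
        simp [hv]
      · show lineOf _ _ = lineOf _ _
        rw [lc_eq]
        exact ⟨1, by rw [one_smul]; exact hwe.symm⟩
    · rintro ⟨p, rfl⟩
      exact ⟨_, hv0 p, rfl, fun k hki hkj => vk p.1 k hki hkj⟩
  rw [hset]
  exact isPreconnected_range hcont

/-- a projective line (the lines in the plane spanned by the coordinate vectors i and j) minus a point is connected -/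
theorem line_conn (i j : Fin 3) (hij : i ≠ j) (Q : PSpace 3) :
    IsPreconnected {l : PSpace 3 | l ≠ Q ∧ ∃ w hw, l = lineOf w hw ∧ ∀ k, k ≠ i → k ≠ j → w k = 0} := by
  obtain ⟨q, hq, rfl⟩ : ∃ q hq, Q = lineOf q hq := by
    induction Q using Projectivization.ind with
    | h v hv => exact ⟨v, hv, rfl⟩
  by_cases hL : ∀ k, k ≠ i → k ≠ j → q k = 0
  · by_cases hqi : q i = 0
    · have hqj : q j ≠ 0 := by
        intro h
        apply hq
        funext k
        by_cases hki : k = i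
        · rw [hki, hqi]
          rfl
        · by_cases hkj : k = j
          · rw [hkj, h]
            rfl
          · exact hL k hki hkj
      have h1 := lc_caseB j i hij.symm q hq hqj (fun k h1 h2 => hL k h2 h1)
      have hset : {l : PSpace 3 | l ≠ lineOf q hq ∧ ∃ w hw, l = lineOf w hw ∧ ∀ k, k ≠ i → k ≠ j → w k = 0} =
          {l : PSpace 3 | l ≠ lineOf q hq ∧ ∃ w hw, l = lineOf w hw ∧ ∀ k, k ≠ j → k ≠ i → w k = 0} := by
        ext l
        constructor
        · rintro ⟨a, w, hw, b, c⟩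
          exact ⟨a, w, hw, b, fun k h1 h2 => c k h2 h1⟩
        · rintro ⟨a, w, hw, b, c⟩
          exact ⟨a, w, hw, b, fun k h1 h2 => c k h2 h1⟩
      rw [hset]
      exact h1
    · exact lc_caseB i j hij q hq hqi hL
  · push Not at hL
    obtain ⟨k0, hk1, hk2, hk3⟩ := hL
    have hset : {l : PSpace 3 | l ≠ lineOf q hq ∧ ∃ w hw, l = lineOf w hw ∧ ∀ k, k ≠ i → k ≠ j → w k = 0} =
        {l : PSpace 3 | ∃ w hw, l = lineOf w hw ∧ ∀ k, k ≠ i → k ≠ j → w k = 0} := by
      ext l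
      constructor
      · rintro ⟨a, b⟩
        exact b
      · rintro ⟨w, hw, rfl, hwL⟩
        refine ⟨?_, w, hw, rfl, hwL⟩
        intro h
        rw [lc_eq] at h
        obtain ⟨c, hc⟩ := h
        have e1 := congrFun hc k0
        simp only [Pi.smul_apply, smul_eq_mul] at e1
        rw [hwL k0 hk1 hk2] at e1
        rcases mul_eq_zero.1 e1 with h2 | h2
        · apply hw
          rw [← hc, h2, zero_smul]
        · exact hk3 h2
    rw [hset]
    exact lc_caseA i j hij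

theorem single_ne (i : Fin 3) : (Pi.single i 1 : Fin 3 → ℂ) ≠ 0 := by
  intro h
  have := congrFun h i
  simp at this

theorem lineOf_single_inj {i j : Fin 3}
    (h : lineOf (Pi.single i 1 : Fin 3 → ℂ) (single_ne i) = lineOf (Pi.single j 1) (single_ne j)) :
    i = j := by
  have h2 := (Projectivization.mk_eq_mk_iff' ℂ _ _ (single_ne i) (single_ne j)).1 h
  obtain ⟨a, ha⟩ := h2
  by_contra hne
  have := congrFun ha i
  simp [Pi.single_apply, hne] at this

/-- removing a point from the coordinate triangle leaves a connected set -/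
theorem triangle_conn (Q : PSpace 3) :
    IsPreconnected {l : PSpace 3 | l ≠ Q ∧ ∃ w hw, l = lineOf w hw ∧ w 0 * w 1 * w 2 = 0} := by
  set S : Fin 3 → Fin 3 → Set (PSpace 3) := fun i j =>
    {l : PSpace 3 | l ≠ Q ∧ ∃ w hw, l = lineOf w hw ∧ ∀ k, k ≠ i → k ≠ j → w k = 0} with hS
  have hconn : ∀ i j, i ≠ j → IsPreconnected (S i j) := fun i j hij => line_conn i j hij Q
  have heq : {l : PSpace 3 | l ≠ Q ∧ ∃ w hw, l = lineOf w hw ∧ w 0 * w 1 * w 2 = 0}
      = (S 0 1 ∪ S 0 2) ∪ S 1 2 := by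
    ext l
    simp only [hS, Set.mem_union, Set.mem_setOf_eq]
    constructor
    · rintro ⟨hl, w, hw, rfl, h⟩
      rcases mul_eq_zero.1 h with h | h
      · rcases mul_eq_zero.1 h with h | h
        · right
          refine ⟨hl, w, hw, rfl, ?_⟩
          intro k hk1 hk2
          fin_cases k <;> simp_all
        · left; right
          refine ⟨hl, w, hw, rfl, ?_⟩
          intro k hk1 hk2
          fin_cases k <;> simp_all
      · left; left
        refine ⟨hl, w, hw, rfl, ?_⟩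
        intro k hk1 hk2
        fin_cases k <;> simp_all
    · rintro ((⟨hl, w, hw, rfl, h⟩ | ⟨hl, w, hw, rfl, h⟩) | ⟨hl, w, hw, rfl, h⟩)
      · exact ⟨hl, w, hw, rfl, by rw [h 2 (by decide) (by decide)]; ring⟩
      · exact ⟨hl, w, hw, rfl, by rw [h 1 (by decide) (by decide)]; ring⟩
      · exact ⟨hl, w, hw, rfl, by rw [h 0 (by decide) (by decide)]; ring⟩
  rw [heq]
  have hmem : ∀ (m i j : Fin 3), (m = i ∨ m = j) →
      lineOf (Pi.single m 1 : Fin 3 → ℂ) (single_ne m) ≠ Q →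
      lineOf (Pi.single m 1 : Fin 3 → ℂ) (single_ne m) ∈ S i j := by
    intro m i j hm hQ
    refine ⟨hQ, _, single_ne m, rfl, ?_⟩
    intro k hk1 hk2
    have : k ≠ m := by rcases hm with rfl | rfl <;> assumption
    simp [Pi.single_apply, this]
  have hdist : ∀ m m' : Fin 3, m ≠ m' →
      lineOf (Pi.single m 1 : Fin 3 → ℂ) (single_ne m) = Q →
      lineOf (Pi.single m' 1 : Fin 3 → ℂ) (single_ne m') ≠ Q := by
    intro m m' hmm h1 h2
    exact hmm (lineOf_single_inj (h1.trans h2.symm))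
  by_cases h0 : lineOf (Pi.single 0 1 : Fin 3 → ℂ) (single_ne 0) = Q
  · have h1 := hdist 0 1 (by decide) h0
    have h2 := hdist 0 2 (by decide) h0
    -- union of S 0 1 and S 1 2 by e1, then S 0 2 by e2
    have hA : IsPreconnected (S 0 1 ∪ S 1 2) :=
      IsPreconnected.union _ (hmem 1 0 1 (by simp) h1) (hmem 1 1 2 (by simp) h1)
        (hconn 0 1 (by decide)) (hconn 1 2 (by decide))
    have hB : IsPreconnected ((S 0 1 ∪ S 1 2) ∪ S 0 2) :=
      IsPreconnected.union _ (Or.inr (hmem 2 1 2 (by simp) h2)) (hmem 2 0 2 (by simp) h2)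
        hA (hconn 0 2 (by decide))
    have : (S 0 1 ∪ S 0 2) ∪ S 1 2 = (S 0 1 ∪ S 1 2) ∪ S 0 2 := by
      ext x; simp only [Set.mem_union]; tauto
    rw [this]; exact hB
  · have hA : IsPreconnected (S 0 1 ∪ S 0 2) :=
      IsPreconnected.union _ (hmem 0 0 1 (by simp) h0) (hmem 0 0 2 (by simp) h0)
        (hconn 0 1 (by decide)) (hconn 0 2 (by decide))
    by_cases h1 : lineOf (Pi.single 1 1 : Fin 3 → ℂ) (single_ne 1) = Q
    · have h2 := hdist 1 2 (by decide) h1
      exact IsPreconnected.union _ (Or.inr (hmem 2 0 2 (by simp) h2)) (hmem 2 1 2 (by simp) h2)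
        hA (hconn 1 2 (by decide))
    · exact IsPreconnected.union _ (Or.inl (hmem 1 0 1 (by simp) h1)) (hmem 1 1 2 (by simp) h1)
        hA (hconn 1 2 (by decide))

theorem AUX_inv (F : (Fin 3 → ℂ) → ℂ)
    (hh : ∀ (c : ℂ) (v : Fin 3 → ℂ), c ≠ 0 → F v = 0 → F (c • v) = 0)
    (v w : Fin 3 → ℂ) (hv : v ≠ 0) (hw : w ≠ 0) (h : lineOf v hv = lineOf w hw) (h0 : F v = 0) :
    F w = 0 := by
  have this : Projectivization.mk ℂ v hv = Projectivization.mk ℂ w hw := h
  rw [Projectivization.mk_eq_mk_iff'] at this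
  obtain ⟨a, ha⟩ := this
  have ha0 : a ≠ 0 := by
    rintro rfl
    rw [zero_smul] at ha
    exact hv ha.symm
  have h2 := hh a⁻¹ v (inv_ne_zero ha0) h0
  rwa [← ha, inv_smul_smul₀ ha0] at h2

theorem AUX_closed (F : (Fin 3 → ℂ) → ℂ) (hF : Continuous F)
    (hh : ∀ (c : ℂ) (v : Fin 3 → ℂ), c ≠ 0 → F v = 0 → F (c • v) = 0) :
    IsClosed {l : PSpace 3 | ∀ w hw, l = lineOf w hw → F w = 0} := by
  have hq : Topology.IsQuotientMap (Quotient.mk (projectivizationSetoid ℂ (Fin 3 → ℂ))) :=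
    isQuotientMap_quotient_mk'
  have h1 : IsClosed ((Quotient.mk (projectivizationSetoid ℂ (Fin 3 → ℂ))) ⁻¹'
      {l : PSpace 3 | ∀ w hw, l = lineOf w hw → F w = 0}) := by
    have : ((Quotient.mk (projectivizationSetoid ℂ (Fin 3 → ℂ))) ⁻¹'
      {l : PSpace 3 | ∀ w hw, l = lineOf w hw → F w = 0}) = {v | F v.1 = 0} := by
      ext v
      constructor
      · intro h
        exact h v.1 v.2 rfl
      · intro h w hw hl
        exact AUX_inv F hh v.1 w v.2 hw hl h
    rw [this]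
    exact isClosed_eq (hF.comp continuous_subtype_val) continuous_const
  exact hq.isClosed_preimage.1 h1

/-- The line, the tangent conic and the second line are disconnected by removing `[1:0:0]` -/
theorem cut (P : PSpace 3) (h0 : (![1, 0, 0] : Fin 3 → ℂ) ≠ 0) (hP : P = lineOf ![1, 0, 0] h0) :
    ¬ IsPreconnected {l : PSpace 3 | l ≠ P ∧
      ∃ w hw, l = lineOf w hw ∧ w 1 * w 2 * (w 0 * w 2 + w 1 ^ 2) = 0} := by
  have hhA : ∀ (c : ℂ) (v : Fin 3 → ℂ), c ≠ 0 → (fun w : Fin 3 → ℂ => w 2) v = 0 →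
      (fun w : Fin 3 → ℂ => w 2) (c • v) = 0 := by
    intro c v _ h
    have h' : v 2 = 0 := h
    simp [h']
  have hhB : ∀ (c : ℂ) (v : Fin 3 → ℂ), c ≠ 0 →
      (fun w : Fin 3 → ℂ => w 1 * (w 0 * w 2 + w 1 ^ 2)) v = 0 →
      (fun w : Fin 3 → ℂ => w 1 * (w 0 * w 2 + w 1 ^ 2)) (c • v) = 0 := by
    intro c v _ h
    have h' : v 1 * (v 0 * v 2 + v 1 ^ 2) = 0 := h
    show (c • v) 1 * ((c • v) 0 * (c • v) 2 + (c • v) 1 ^ 2) = 0
    simp only [Pi.smul_apply, smul_eq_mul]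
    have : c * v 1 * (c * v 0 * (c * v 2) + (c * v 1) ^ 2)
        = c ^ 3 * (v 1 * (v 0 * v 2 + v 1 ^ 2)) := by ring
    rw [this, h', mul_zero]
  have hA := AUX_closed (fun w => w 2) (by fun_prop) hhA
  have hB := AUX_closed (fun w => w 1 * (w 0 * w 2 + w 1 ^ 2)) (by fun_prop) hhB
  intro hS
  have h010 : (![0, 1, 0] : Fin 3 → ℂ) ≠ 0 := by
    intro h
    have := congrFun h 1
    simp at this
  have h001 : (![0, 0, 1] : Fin 3 → ℂ) ≠ 0 := by
    intro h
    have := congrFun h 2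
    simp at this
  have key := isPreconnected_closed_iff.1 hS _ _ hA hB
  refine absurd (key ?_ ?_ ?_) ?_
  rotate_left 3
  · rintro ⟨l, hlS, hlA, hlB⟩
    obtain ⟨hlP, w, hw, hl, _⟩ := hlS
    have h2 : w 2 = 0 := hlA w hw hl
    have h1 : w 1 * (w 0 * w 2 + w 1 ^ 2) = 0 := hlB w hw hl
    have h1' : w 1 = 0 := by
      rw [h2, mul_zero, zero_add] at h1
      have : w 1 ^ 3 = 0 := by rw [← h1]; ring
      exact pow_eq_zero_iff (by norm_num) |>.1 this
    apply hlP
    rw [hl, hP]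
    show Projectivization.mk ℂ w hw = Projectivization.mk ℂ ![1, 0, 0] h0
    rw [Projectivization.mk_eq_mk_iff']
    refine ⟨w 0, ?_⟩
    ext i
    fin_cases i
    · simp
    · simp [h1']
    · simp [h2]
  · rintro l ⟨hlP, w, hw, hl, h⟩
    have h' : w 2 = 0 ∨ w 1 * (w 0 * w 2 + w 1 ^ 2) = 0 := by
      by_cases h2 : w 2 = 0
      · exact Or.inl h2
      · right
        have : w 2 * (w 1 * (w 0 * w 2 + w 1 ^ 2)) = 0 := by rw [← h]; ring
        exact (mul_eq_zero.1 this).resolve_left h2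
    rcases h' with h' | h'
    · left
      intro w' hw' hl'
      exact AUX_inv _ hhA w w' hw hw' (hl.symm.trans hl') h'
    · right
      intro w' hw' hl'
      exact AUX_inv _ hhB w w' hw hw' (hl.symm.trans hl') h'
  · refine ⟨lineOf ![0, 1, 0] h010, ⟨?_, ![0, 1, 0], h010, rfl, by simp⟩, ?_⟩
    · rw [hP]
      intro h
      have h' : Projectivization.mk ℂ ![0, 1, 0] h010 = Projectivization.mk ℂ ![1, 0, 0] h0 := h
      rw [Projectivization.mk_eq_mk_iff'] at h'
      obtain ⟨a, ha⟩ := h'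
      have := congrFun ha 1
      simp at this
    · intro w' hw' hl'
      exact AUX_inv _ hhA _ w' h010 hw' hl' (by simp)
  · refine ⟨lineOf ![0, 0, 1] h001, ⟨?_, ![0, 0, 1], h001, rfl, by simp⟩, ?_⟩
    · rw [hP]
      intro h
      have h' : Projectivization.mk ℂ ![0, 0, 1] h001 = Projectivization.mk ℂ ![1, 0, 0] h0 := h
      rw [Projectivization.mk_eq_mk_iff'] at h'
      obtain ⟨a, ha⟩ := h'
      have := congrFun ha 2
      simp at this
    · intro w' hw' hl'
      exact AUX_inv _ hhB _ w' h001 hw' hl' (by simp)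

theorem exists_line (l : PSpace 3) : ∃ w, ∃ hw : w ≠ 0, l = lineOf w hw := by
  refine ⟨Projectivization.rep l, Projectivization.rep_nonzero l, ?_⟩
  exact (Projectivization.mk_rep l).symm

theorem no_homeo : IsEmpty (excVariety (zeroSet f₀) ≃ₜ excVariety (zeroSet f₁)) := by
  refine ⟨fun e => ?_⟩
  have h0 : (![1, 0, 0] : Fin 3 → ℂ) ≠ 0 := by
    intro h
    have := congrFun h 0
    simp at this
  have hP : lineOf ![1, 0, 0] h0 ∈ excVariety (zeroSet f₁) := by
    rw [exc_one]; simp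
  set P : excVariety (zeroSet f₁) := ⟨lineOf ![1, 0, 0] h0, hP⟩ with hPdef
  set Q : excVariety (zeroSet f₀) := e.symm P with hQdef
  have hconn := triangle_conn (Q : PSpace 3)
  have hE0 : {l : PSpace 3 | l ≠ (Q : PSpace 3) ∧ ∃ w hw, l = lineOf w hw ∧ w 0 * w 1 * w 2 = 0}
      = (Subtype.val : excVariety (zeroSet f₀) → PSpace 3) '' {q | q ≠ Q} := by
    ext l
    simp only [Set.mem_setOf_eq, Set.mem_image]
    constructor
    · rintro ⟨hl, w, hw, rfl, h⟩
      exact ⟨⟨lineOf w hw, (exc_zero w hw).2 h⟩, fun h' => hl (congrArg Subtype.val h'), rfl⟩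
    · rintro ⟨q, hq, rfl⟩
      obtain ⟨w, hw, hwl⟩ := exists_line q.1
      refine ⟨fun h' => hq (Subtype.ext h'), w, hw, hwl, ?_⟩
      rw [← exc_zero w hw, ← hwl]
      exact q.2
  have hE1 : {l : PSpace 3 | l ≠ (P : PSpace 3) ∧
      ∃ w hw, l = lineOf w hw ∧ w 1 * w 2 * (w 0 * w 2 + w 1 ^ 2) = 0}
      = (Subtype.val : excVariety (zeroSet f₁) → PSpace 3) '' {q | q ≠ P} := by
    ext l
    simp only [Set.mem_setOf_eq, Set.mem_image]
    constructor
    · rintro ⟨hl, w, hw, rfl, h⟩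
      exact ⟨⟨lineOf w hw, (exc_one w hw).2 h⟩, fun h' => hl (congrArg Subtype.val h'), rfl⟩
    · rintro ⟨q, hq, rfl⟩
      obtain ⟨w, hw, hwl⟩ := exists_line q.1
      refine ⟨fun h' => hq (Subtype.ext h'), w, hw, hwl, ?_⟩
      rw [← exc_one w hw, ← hwl]
      exact q.2
  rw [hE0] at hconn
  have h1 : IsPreconnected {q : excVariety (zeroSet f₀) | q ≠ Q} :=
    (Topology.IsInducing.subtypeVal.isPreconnected_image).1 hconn
  have h2 : IsPreconnected (e '' {q : excVariety (zeroSet f₀) | q ≠ Q}) :=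
    h1.image e e.continuous.continuousOn
  have h3 : e '' {q : excVariety (zeroSet f₀) | q ≠ Q} = {q | q ≠ P} := by
    ext q
    simp only [Set.mem_image, Set.mem_setOf_eq]
    constructor
    · rintro ⟨a, ha, rfl⟩ h
      exact ha (by rw [hQdef, ← h]; simp)
    · intro hq
      refine ⟨e.symm q, ?_, by simp⟩
      intro h
      exact hq (e.symm.injective (h.trans hQdef))
  rw [h3] at h2
  have h4 := h2.image (Subtype.val : excVariety (zeroSet f₁) → PSpace 3)
    continuous_subtype_val.continuousOn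
  rw [← hE1] at h4
  exact cut _ h0 rfl h4

theorem germ_aux (f : MvPolynomial (Fin 3) ℂ) (g : (Fin 3 → ℂ) → ℂ)
    (hg : ∀ v, MvPolynomial.eval v f = g v) (han : AnalyticAt ℂ g 0) (h0 : g 0 = 0)
    (h1 : ∀ σ : ℂ, g ![0, σ, 0] = σ ^ 6) : IsHypersurfaceGerm (zeroSet f) := by
  refine ⟨g, han, h0, ?_, ?_⟩
  · intro h
    have hc : Filter.Tendsto (fun σ : ℂ => (![0, σ, 0] : Fin 3 → ℂ)) (nhdsWithin 0 {0}ᶜ) (nhds 0) := by
      have : Continuous (fun σ : ℂ => (![0, σ, 0] : Fin 3 → ℂ)) := by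
        refine continuous_pi ?_
        intro i
        fin_cases i <;> simp <;> fun_prop
      have h2 := this.tendsto 0
      have h3 : (![0, (0 : ℂ), 0] : Fin 3 → ℂ) = 0 := by
        ext i; fin_cases i <;> rfl
      rw [h3] at h2
      exact h2.mono_left nhdsWithin_le_nhds
    have h4 : ∀ᶠ σ : ℂ in nhdsWithin 0 {0}ᶜ, g ![0, σ, 0] = 0 := hc.eventually h
    have h5 : ∀ᶠ σ : ℂ in nhdsWithin 0 {0}ᶜ, σ ≠ 0 := self_mem_nhdsWithin
    obtain ⟨σ, h6, h7⟩ := (h4.and h5).exists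
    rw [h1] at h6
    exact h7 (by simpa using h6)
  · refine Filter.Eventually.of_forall ?_
    intro v
    simp only [zeroSet]
    change MvPolynomial.eval v f = 0 ↔ g v = 0
    rw [hg]

theorem germ₀ : IsHypersurfaceGerm (zeroSet f₀) := by
  refine germ_aux f₀ (fun v => v 1 * (v 2 ^ 3 * v 0 + v 1 ^ 5)) ?_ ?_ ?_ ?_
  · intro v; simp [f₀]
  · have hp : ∀ i, AnalyticAt ℂ (fun v : Fin 3 → ℂ => v i) 0 := fun i =>
      (ContinuousLinearMap.proj (R := ℂ) (φ := fun _ : Fin 3 => ℂ) i).analyticAt 0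
    exact (hp 1).mul ((((hp 2).pow 3).mul (hp 0)).add ((hp 1).pow 5))
  · simp
  · intro σ; simp; ring

theorem germ₁ : IsHypersurfaceGerm (zeroSet f₁) := by
  refine germ_aux f₁ (fun v => v 1 * (v 2 ^ 3 * v 0 + v 1 ^ 5 + v 2 ^ 2 * v 1 ^ 2)) ?_ ?_ ?_ ?_
  · intro v; simp [f₁]
  · have hp : ∀ i, AnalyticAt ℂ (fun v : Fin 3 → ℂ => v i) 0 := fun i =>
      (ContinuousLinearMap.proj (R := ℂ) (φ := fun _ : Fin 3 => ℂ) i).analyticAt 0
    exact (hp 1).mul (((((hp 2).pow 3).mul (hp 0)).add ((hp 1).pow 5)).add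
      (((hp 2).pow 2).mul ((hp 1).pow 2)))
  · simp
  · intro σ; simp; ring

/-- The assertion of Q1 is false, already for `r = 2`: the surface germs `V₀ : y (z³ x + y⁵) = 0` and
`V₁ : y (z³ x + y⁵ + z² y²) = 0` in `C³` are topologically equisingular, but there is no homeomorphism
at all between their exceptional varieties. -/
theorem result :
    ¬ QuestionB ∧
    (IsHypersurfaceGerm (zeroSet f₀) ∧ IsHypersurfaceGerm (zeroSet f₁) ∧
      TopEquisingular (zeroSet f₀) 0 (zeroSet f₁) 0 ∧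
      IsEmpty (excVariety (zeroSet f₀) ≃ₜ excVariety (zeroSet f₁))) := by
  refine ⟨?_, germ₀, germ₁, equisingular, no_homeo⟩
  intro h
  obtain ⟨F, -⟩ := h 2 le_rfl (zeroSet f₀) (zeroSet f₁) germ₀ germ₁ equisingular
  exact no_homeo.false F

end Pool.Agent.Results.MP_f1850b_ag.ZariskiB
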